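import Pool.Agent.H487.GA.Stm2

set_option autoImplicit false

/-!
# `S_CDF` from `S_LEVS`, `S_MAINY`, `S_KAD`
-/

open Finset Complex Filter Topology Metric Set MeasureTheory

namespace Pool.Agent.H358.GA

open Pool.Agent.H487.GA

noncomputable section

/-! ### zeros of zeta and continuity of `XF` -/

theorem cdf_zeta_fin (A B : ℝ) (hA : 0 < A) :
    {s : ℂ | s ∈ ZS ∧ A ≤ s.im ∧ s.im ≤ B}.Finite := by
  by_contra hinf
  have hK : IsCompact (Icc (0:ℝ) 1 ×ℂ Icc A B) := isCompact_Icc.reProdIm isCompact_Icc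
  obtain ⟨z, hz, hacc⟩ := Set.Infinite.exists_accPt_of_subset_isCompact hinf hK (fun s hs => by
    rw [Complex.mem_reProdIm]
    exact ⟨⟨hs.1.2.1.le, hs.1.2.2.le⟩, ⟨hs.2.1, hs.2.2⟩⟩)
  rw [Complex.mem_reProdIm] at hz
  have hz1 : z ∈ ({1}ᶜ : Set ℂ) := by
    intro h
    rw [Set.mem_singleton_iff] at h
    have := hz.2.1
    rw [h, Complex.one_im] at this
    linarith
  have hana : AnalyticOnNhd ℂ riemannZeta ({1}ᶜ : Set ℂ) :=
    DifferentiableOn.analyticOnNhd (fun s hs => (differentiableAt_riemannZeta hs).differentiableWithinAt)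
      isOpen_compl_singleton
  have hpre : IsPreconnected ({1}ᶜ : Set ℂ) :=
    (isConnected_compl_singleton_of_one_lt_rank (by simp) 1).isPreconnected
  have hfr : ∃ᶠ s in 𝓝[≠] z, riemannZeta s = 0 := by
    rw [accPt_iff_frequently_nhdsNE] at hacc
    exact hacc.mono fun s hs => hs.1.1
  have := hana.eqOn_zero_of_preconnected_of_frequently_eq_zero hpre hz1 hfr
  exact riemannZeta_ne_zero_of_one_lt_re (s := 2) (by norm_num) (this (by simp))

theorem cdf_XF_contOn {F : ℝ → ℝ} (hF : C2c F) {T a b : ℝ} (ha : 3 ≤ a) : ContinuousOn (XF F T) (Icc a b) := by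
  have hfin := cdf_zeta_fin (a - 1) (b + 1) (by linarith)
  have h : ∀ t ∈ Icc a b, XF F T t =
      (∑ s ∈ hfin.toFinset, (mz s : ℝ) * F (s.im - t)) - Real.log T / (2 * Real.pi) * ∫ x : ℝ, F x := by
    intro t ht
    unfold XF
    congr 1
    apply finsum_mem_eq_sum_of_inter_support_eq
    ext s
    simp only [Set.mem_inter_iff, Function.mem_support, Set.Finite.coe_toFinset, Set.mem_ofPred_eq]
    constructor
    · rintro ⟨h1, h2⟩
      refine ⟨⟨h1, ?_⟩, h2⟩
      by_contra hcon
      apply h2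
      rw [hF.supp, mul_zero]
      by_contra hc
      push Not at hc
      apply hcon
      have := abs_lt.1 hc
      constructor
      · linarith [ht.1, ht.2]
      · linarith [ht.1, ht.2]
    · rintro ⟨⟨h1, _⟩, h2⟩
      exact ⟨h1, h2⟩
  have hFc : Continuous F := hF.cd.continuous
  exact (Continuous.continuousOn (by fun_prop)).congr h

theorem cdf_XF_smul (u : ℝ) (F : ℝ → ℝ) (T t : ℝ) : XF (fun x => u * F x) T t = u * XF F T t := by
  unfold XF
  rw [mul_sub]
  congr 1
  · rw [← smul_eq_mul (a := u), smul_finsum]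
    refine finsum_congr fun s => ?_
    rw [smul_finsum]
    refine finsum_congr fun _ => ?_
    rw [smul_eq_mul]; ring
  · rw [integral_const_mul]; ring

/-! ### the laws -/

/-- the normalised restriction of Lebesgue measure to `[T, 2T]` -/
def cdfNu (T : ℝ) : Measure ℝ := (ENNReal.ofReal (1 / T)) • (volume.restrict (Icc T (2 * T)))

theorem cdfNu_prob {T : ℝ} (hT : 0 < T) : IsProbabilityMeasure (cdfNu T) := by
  constructor
  unfold cdfNu
  rw [Measure.smul_apply, Measure.restrict_apply MeasurableSet.univ, Set.univ_inter, Real.volume_Icc, smul_eq_mul,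
    ← ENNReal.ofReal_mul (by positivity)]
  rw [show 1 / T * (2 * T - T) = 1 by field_simp; ring]
  exact ENNReal.ofReal_one

theorem cdf_real_Iic {T : ℝ} (hT : 0 < T) (f : ℝ → ℝ) (hf : AEMeasurable f (cdfNu T)) (a : ℝ) :
    ((cdfNu T).map f).real (Set.Iic a) = (volume {t : ℝ | t ∈ Icc T (2 * T) ∧ f t ≤ a}).toReal / T := by
  rw [Measure.real, Measure.map_apply_of_aemeasurable hf measurableSet_Iic]
  unfold cdfNu
  rw [Measure.smul_apply, Measure.restrict_apply' measurableSet_Icc, smul_eq_mul, ENNReal.toReal_mul,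
    ENNReal.toReal_ofReal (by positivity)]
  have : f ⁻¹' Set.Iic a ∩ Icc T (2 * T) = {t : ℝ | t ∈ Icc T (2 * T) ∧ f t ≤ a} := by
    ext t
    simp only [Set.mem_inter_iff, Set.mem_preimage, Set.mem_Iic, Set.mem_ofPred_eq]
    tauto
  rw [this]
  field_simp

theorem cdf_char {T : ℝ} (hT : 0 < T) (f : ℝ → ℝ) (hf : AEMeasurable f (cdfNu T)) (u : ℝ) :
    charFun ((cdfNu T).map f) u = (1 / T : ℂ) * ∫ t in T..(2 * T), cexp (I * ((u * f t : ℝ) : ℂ)) := by
  rw [charFun_apply_real, integral_map hf]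
  · unfold cdfNu
    rw [integral_smul_measure, ENNReal.toReal_ofReal (by positivity), integral_Icc_eq_integral_Ioc,
      intervalIntegral.integral_of_le (by linarith), Complex.real_smul]
    push_cast
    congr 1
    refine integral_congr_ae (Eventually.of_forall fun t => ?_)
    show cexp _ = cexp _
    congr 1
    ring
  · exact Continuous.aestronglyMeasurable (by fun_prop)

theorem cdf_proof (h1 : S_LEVS) (h2 : S_MAINY) (h3 : S_KAD) : S_CDF := by
  intro a ε hε
  by_contra hcon
  push Not at hcon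
  have hch : ∀ n : ℕ, ∃ T : ℝ, (n : ℝ) + 10 ≤ T ∧ ∃ r : ℝ, 0 < r ∧ (n : ℝ) + 1 ≤ r * Real.log T ∧ r ≤ 1 / ((n : ℝ) + 1) ∧
      ε * T < |(volume {t : ℝ | t ∈ Icc T (2 * T) ∧ XF (Fy r) T t ≤ a}).toReal -
        T * (ProbabilityTheory.gaussianReal 0 1).real (Set.Iic (Real.sqrt 8 * a))| := by
    intro n
    obtain ⟨T, hT, r, hr0, hr1, hr2, h⟩ := hcon ((n : ℝ) + 1) (1 / ((n : ℝ) + 1)) ((n : ℝ) + 10)
      (by have : (0:ℝ) ≤ n := Nat.cast_nonneg n; linarith) (by positivity)
    exact ⟨T, hT, r, hr0, hr1, hr2, h⟩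
  choose T hT r hr0 hr1 hr2 hbad using hch
  have hn0 : ∀ n : ℕ, (0:ℝ) ≤ n := fun n => Nat.cast_nonneg n
  have hTpos : ∀ n, 0 < T n := fun n => by linarith [hT n, hn0 n]
  have hT10 : ∀ n, 10 ≤ T n := fun n => by linarith [hT n, hn0 n]
  -- C2c of Fy
  have hc2 : ∀ n, r n ≤ 2 := fun n => by
    refine (hr2 n).trans ?_
    rw [div_le_iff₀ (by linarith [hn0 n])]
    linarith [hn0 n]
  have hC2c : ∀ n, C2c (Fy (r n)) := by
    intro n
    obtain ⟨c, V, hc, hV, hA⟩ := h3.1
    have hL : 1 ≤ Real.log (T n) := by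
      by_contra hlt
      push Not at hlt
      have h5 : Real.log 10 ≤ Real.log (T n) := Real.log_le_log (by norm_num) (hT10 n)
      have h6 : (1:ℝ) ≤ Real.log 10 := by
        rw [Real.le_log_iff_exp_le (by norm_num)]
        have := Real.exp_one_lt_d9
        linarith
      linarith
    have hAd := (hA (r n) (Real.log (T n)) (hr0 n) (hc2 n) hL (by linarith [hr1 n, hn0 n])).c2
    have hcd : ContDiff ℝ 2 (fun x => c⁻¹ * (c * Fy (r n) x)) := contDiff_const.mul hAd.cd
    have he : (fun x => c⁻¹ * (c * Fy (r n) x)) = Fy (r n) := by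
      funext x
      field_simp
    rw [he] at hcd
    refine ⟨hcd, fun x hx => ?_⟩
    have := hAd.supp x hx
    rcases mul_eq_zero.1 this with h | h
    · exact absurd h hc.ne'
    · exact h
  have hmeas : ∀ n, AEMeasurable (XF (Fy (r n)) (T n)) (cdfNu (T n)) := by
    intro n
    unfold cdfNu
    apply AEMeasurable.smul_measure
    exact (cdf_XF_contOn (hC2c n) (by linarith [hT10 n])).aemeasurable measurableSet_Icc
  have hTt : Tendsto T atTop atTop := by
    apply tendsto_atTop_mono (f := fun n : ℕ => (n : ℝ))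
    · intro n; linarith [hT n]
    · exact tendsto_natCast_atTop_atTop
  have hrt : Tendsto r atTop (𝓝 0) := by
    refine squeeze_zero (fun n => (hr0 n).le) hr2 tendsto_one_div_add_atTop_nhds_zero_nat
  have hrLt : Tendsto (fun n => r n * Real.log (T n)) atTop atTop := by
    apply tendsto_atTop_mono (f := fun n : ℕ => (n : ℝ))
    · intro n; linarith [hr1 n]
    · exact tendsto_natCast_atTop_atTop
  have hlev := h1 (fun n => (cdfNu (T n)).map (XF (Fy (r n)) (T n))) (fun n => by
    have := cdfNu_prob (hTpos n)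
    exact Measure.isProbabilityMeasure_map (hmeas n)) (fun u => ?_) a
  · -- conclusion
    rw [Metric.tendsto_atTop] at hlev
    obtain ⟨N, hN⟩ := hlev ε hε
    have h5 := hN N le_rfl
    rw [cdf_real_Iic (hTpos N) _ (hmeas N), Real.dist_eq] at h5
    have h6 := hbad N
    have h7 : (volume {t : ℝ | t ∈ Icc (T N) (2 * T N) ∧ XF (Fy (r N)) (T N) t ≤ a}).toReal -
        T N * (ProbabilityTheory.gaussianReal 0 1).real (Set.Iic (Real.sqrt 8 * a)) =
        T N * ((volume {t : ℝ | t ∈ Icc (T N) (2 * T N) ∧ XF (Fy (r N)) (T N) t ≤ a}).toReal / T N -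
          (ProbabilityTheory.gaussianReal 0 1).real (Set.Iic (Real.sqrt 8 * a))) := by
      have := (hTpos N).ne'
      field_simp
    rw [h7, abs_mul, abs_of_pos (hTpos N)] at h6
    nlinarith [hTpos N]
  · -- characteristic functions
    obtain ⟨V, hV, hK⟩ := h3.2 u
    have hsg : Tendsto (fun n => sg (fun x => u * Fy (r n) x)) atTop (𝓝 (u ^ 2 / 8)) := by
      rw [Metric.tendsto_atTop]
      intro e he
      obtain ⟨δ, K, hδ, hK1, hK2⟩ := hK (e / 2) (by positivity)
      have e1 := (hrt.eventually_lt_const hδ).and (hrLt.eventually_ge_atTop K)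
      rw [eventually_atTop] at e1
      obtain ⟨N, hN⟩ := e1
      refine ⟨N, fun n hn => ?_⟩
      have := (hK2 (r n) (Real.log (T n)) (hr0 n) (hN n hn).1.le (hN n hn).2).2
      rw [Real.dist_eq]
      linarith
    have hlim : Tendsto (fun n => cexp (-(sg (fun x => u * Fy (r n) x) : ℂ) / 2)) atTop (𝓝 (cexp (-(u : ℂ) ^ 2 / 16))) := by
      have h5 : Continuous fun s : ℝ => cexp (-(s : ℂ) / 2) := by fun_prop
      have h6 := (h5.tendsto (u ^ 2 / 8)).comp hsg
      have h7 : cexp (-((u ^ 2 / 8 : ℝ) : ℂ) / 2) = cexp (-(u : ℂ) ^ 2 / 16) := by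
        congr 1
        push_cast
        ring
      rw [h7] at h6
      exact h6
    have hdiff : Tendsto (fun n => charFun ((cdfNu (T n)).map (XF (Fy (r n)) (T n))) u -
        cexp (-(sg (fun x => u * Fy (r n) x) : ℂ) / 2)) atTop (𝓝 0) := by
      rw [Metric.tendsto_atTop]
      intro e he
      obtain ⟨η, T0, hη, _, hT0, hM⟩ := h2 V (e / 2) hV (by positivity)
      obtain ⟨δ, K, hδ, hK1, hK2⟩ := hK η hη
      have e1 := ((hrt.eventually_lt_const hδ).and (hrLt.eventually_ge_atTop K)).and (hTt.eventually_ge_atTop T0)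
      rw [eventually_atTop] at e1
      obtain ⟨N, hN⟩ := e1
      refine ⟨N, fun n hn => ?_⟩
      obtain ⟨⟨hn1, hn2⟩, hn3⟩ := hN n hn
      have h5 := (hK2 (r n) (Real.log (T n)) (hr0 n) hn1.le hn2).1
      have h6 := hM (T n) hn3 _ h5
      rw [dist_zero_right, cdf_char (hTpos n) _ (hmeas n)]
      have h7 : (∫ t in (T n)..(2 * T n), cexp (I * ((u * XF (Fy (r n)) (T n) t : ℝ) : ℂ))) =
          ∫ t in (T n)..(2 * T n), cexp (I * (XF (fun x => u * Fy (r n) x) (T n) t : ℂ)) := by
        simp only [cdf_XF_smul]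
      rw [h7]
      linarith
    have := hdiff.add hlim
    simpa using this

end

end Pool.Agent.H358.GA
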